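import Pool.Agent.Lib_helper58.NB.Final

/-!
# MP_ea0d02_nt: gaps of length four for n = 1 over real quadratic fields
-/

open NumberField Pool.Agent.Lib_helper76.UL

namespace Pool.Agent.Results.MP_ea0d02_nt.LengthFourQuadratic

theorem result (C : ℕ) : ∃ B : ℕ, ∀ (K : Type) [Field K] [NumberField K] [IsTotallyReal K],
    Module.finrank ℚ K = 2 → ∀ (D : ℕ) (t : K), Squarefree D → B < D → t ^ 2 = (D : K) →
      U K 1 + (C : ℕ∞) ≤ U K 5 :=
  Pool.Agent.Lib_helper58.NB.length_four C

end Pool.Agent.Results.MP_ea0d02_nt.LengthFourQuadratic
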