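import Pool.Agent.Lib_helper80.ULS.Final

/-!
# MP_ea0d02_nt: gaps over real quadratic fields
-/

open NumberField Pool.Agent.Lib_helper76.UL

namespace Pool.Agent.Results.MP_ea0d02_nt.RealQuadraticGap

theorem result (K : Type) [Field K] [NumberField K] [IsTotallyReal K]
    (h2 : Module.finrank ℚ K = 2) (n N : ℕ) (hN : 4 * n ≤ N) :
    (∀ (c : ℕ) (F : Fin c → Lat K), (∀ i, Unimodular K (F i).B ∧ Indec K (F i).B) →
      (∀ i j, i ≠ j → ¬ Isometric K (F i).B (F j).B) →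
        U K n + ((∑ i, (N / rk K (F i).L - 4 * n / rk K (F i).L) * rk K (F i).L : ℕ) : ℕ∞)
          ≤ U K N) ∧
    ∀ (D : ℕ) (t : K), Squarefree D → 1 < D → t ^ 2 = (D : K) →
      U K n + (((N - 4 * n) * 2 ^ (D.primeFactors.card - 1) : ℕ) : ℕ∞) ≤ U K N :=
  ⟨fun c F hF hne => Pool.Agent.Lib_helper80.ULS.final_general K h2 n N hN c F hF hne,
    fun D t hD hD1 ht => Pool.Agent.Lib_helper80.ULS.final_explicit K h2 n N hN D t hD hD1 ht⟩

end Pool.Agent.Results.MP_ea0d02_nt.RealQuadraticGap
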