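import Pool.Agent.Lib_helper76.UL.Core

/-!
# MP_ea0d02_nt: minimal ranks of n-universal lattices grow strictly
-/

open NumberField Pool.Agent.Lib_helper76.UL

namespace Pool.Agent.Results.MP_ea0d02_nt.StrictGrowth

theorem result (K : Type) [Field K] [NumberField K] [IsTotallyReal K] (n m : ℕ) :
    U K n + (m : ℕ∞) ≤ U K (n + m) :=
  growth K n m

end Pool.Agent.Results.MP_ea0d02_nt.StrictGrowth
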