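import Pool.Agent.Lib_helper76.UL.Core

/-!
# MP_ea0d02_nt: removing unimodular summands which are not needed in smaller rank
-/

open NumberField Pool.Agent.Lib_helper76.UL

namespace Pool.Agent.Results.MP_ea0d02_nt.UnimodularRemoval

theorem result (K : Type) [Field K] [NumberField K] [IsTotallyReal K] (n N : ℕ)
    (C : Set (Lat K))
    (hC : ∀ G ∈ C, Unimodular K G.B ∧ rk K G.L ≤ N)
    (hrep : ∀ M : Lat K, rk K M.L = n → ∃ G ∈ C, Represents K G.B M.B)
    (c : ℕ) (F : Fin c → Lat K) (k m : Fin c → ℕ)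
    (hF : ∀ i, Unimodular K (F i).B ∧ Indec K (F i).B)
    (hne : ∀ i j, i ≠ j → ¬ Isometric K (F i).B (F j).B)
    (hmk : ∀ i, m i ≤ k i) (hk : ∀ i, k i * rk K (F i).L ≤ N)
    (hno : ∀ i, ∀ G ∈ C, ¬ Represents K G.B (powForm K (F i).B (m i + 1))) :
    U K n + ((∑ i, (k i - m i) * rk K (F i).L : ℕ) : ℕ∞) ≤ U K N :=
  removal K n N C hC hrep c F k m hF hne hmk hk hno

end Pool.Agent.Results.MP_ea0d02_nt.UnimodularRemoval
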